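import Mathlib
import Pool.Agent.Results.MP_d958de_lc.NoSubquadratic

set_option autoImplicit false

/-!
# Fourier submatrix-vector products: one hard input for countably many algorithms
-/

open MvPolynomial Filter

namespace Pool.Agent.Y626.FS

open Pool.Agent.H598R2
open Pool.Agent.Results.MP_d958de_lc.NoSubquadratic

/-- The columns `1, B, B², ..., B ^ (m - 1)`. -/
def cols (B m d : ℕ) : Finset (Fin d) := Finset.univ.filter fun x => ∃ k < m, (x : ℕ) = B ^ k

/-- On the input `(d, R, C, v)` the algorithm outputs the vector `F_{RC} v` within `T` steps. -/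
def Succeeds (A : Algorithm) (d : ℕ) (R C : Finset (Fin d)) (v : C → ℂ) (T : ℕ) : Prop :=
  steps A d R C v ≤ T ∧ ∀ r : R, (A d R C).eval d v [] r = ∑ c : C, fourier d r c * v c

open Classical in
theorem lower (m T : ℕ) (hT : 4 * T + 1 < m ^ 2) (ε : ℝ) (hε : 0 < ε) :
    ∃ B d₀ : ℕ, 2 ≤ B ∧ m ≤ d₀ ∧ ∀ A : ℕ → Algorithm, ∃ w : ℕ → ℂ, ∀ d ≥ d₀,
      (cols B m d).card = m ∧ ∀ i,
        ((((Finset.univ : Finset (Fin d)).powersetCard m).filter
          (fun R => Succeeds (A i) d R (cols B m d) (fun c => w (c : Fin d)) T)).card : ℝ) ≤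
            ε * d.choose m := by
  obtain ⟨H, hH0, hH⟩ := exists_annihilator (m := m) (n := 2 * T) (by omega)
  set B := H.totalDegree + 2 with hB
  have hB2 : 2 ≤ B := by omega
  have hG0 : kron B H ≠ 0 := by
    apply kron_ne_zero hH0
    intro s hs p
    have h1 : s p ≤ s.sum fun _ n => n := by
      rw [Finsupp.sum_fintype _ _ (fun _ => rfl)]
      exact Finset.single_le_sum (f := fun q => s q) (fun q _ => Nat.zero_le _) (Finset.mem_univ p)
    have h2 := le_totalDegree hs
    omega
  obtain ⟨N, hN⟩ := exists_nat_ge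
    (((kron B H).totalDegree : ℝ) * (2 ^ m * m.factorial) / ε)
  refine ⟨B, N + B ^ m + 2 * m + 1, hB2, by omega, fun A => ?_⟩
  have hinjB : ∀ a b : Fin m, B ^ (a : ℕ) = B ^ (b : ℕ) → a = b := fun a b h =>
    Fin.ext (Nat.pow_right_injective hB2 h)
  let S0 : Set ℂ := (⋃ i : ℕ, ⋃ d : ℕ, ⋃ R : Finset (Fin d), (A i d R (cols B m d)).consts) ∪
    ⋃ d : ℕ, Set.range (fun p : Fin d × Fin d => fourier d p.1 p.2)
  have hS0 : S0.Countable :=
    (Set.countable_iUnion fun i => Set.countable_iUnion fun d => Set.countable_iUnion fun R =>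
      Prog.consts_countable _).union (Set.countable_iUnion fun d => Set.countable_range _)
  let S : Set ℂ := S0 ∪ (starRingEnd ℂ) '' S0
  have hS : S.Countable := hS0.union (hS0.image _)
  obtain ⟨u, D0, hD0, hu, hu'⟩ := exists_dual_system (Fin m) S hS
  refine ⟨fun n => if h : ∃ k : Fin m, B ^ (k : ℕ) = n then u h.choose else 0, fun d hd => ?_⟩
  have hw : ∀ k : Fin m, (if h : ∃ k' : Fin m, B ^ (k' : ℕ) = B ^ (k : ℕ) then u h.choose else 0) =
      u k := by
    intro k
    have hex : ∃ k' : Fin m, B ^ (k' : ℕ) = B ^ (k : ℕ) := ⟨k, rfl⟩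
    rw [dif_pos hex, hinjB _ _ hex.choose_spec]
  have hd0 : d ≠ 0 := by omega
  have hdm : 2 * m ≤ d := by omega
  have hBd : ∀ k : Fin m, B ^ (k : ℕ) < d := by
    intro k
    have : B ^ (k : ℕ) ≤ B ^ m := Nat.pow_le_pow_right (by omega) k.2.le
    omega
  let c : Fin m → Fin d := fun k => ⟨B ^ (k : ℕ), hBd k⟩
  have hc : Function.Injective c := fun a b hab => hinjB a b (congrArg Fin.val hab)
  have hcols : cols B m d = Finset.univ.image c := by
    ext x
    simp only [cols, Finset.mem_filter, Finset.mem_univ, true_and, Finset.mem_image]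
    constructor
    · rintro ⟨k, hk, hx⟩
      exact ⟨⟨k, hk⟩, Fin.ext hx.symm⟩
    · rintro ⟨k, rfl⟩
      exact ⟨k, k.2, rfl⟩
  have hC : (cols B m d).card = m := by
    rw [hcols, Finset.card_image_of_injective _ hc, Finset.card_univ, Fintype.card_fin]
  refine ⟨hC, fun i => ?_⟩
  have hmemc : ∀ k, c k ∈ cols B m d := fun k => by
    rw [hcols]; exact Finset.mem_image_of_mem _ (Finset.mem_univ k)
  let e0 : Fin m → cols B m d := fun k => ⟨c k, hmemc k⟩
  have he0 : Function.Bijective e0 := by
    constructor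
    · intro a b hab
      exact hc (congrArg Subtype.val hab)
    · rintro ⟨x, hx⟩
      have hx' := hx
      rw [hcols] at hx'
      obtain ⟨k, -, rfl⟩ := Finset.mem_image.1 hx'
      exact ⟨k, rfl⟩
  let e : Fin m ≃ cols B m d := Equiv.ofBijective e0 he0
  set v : cols B m d → ℂ := fun x =>
    if h : ∃ k : Fin m, B ^ (k : ℕ) = ((x : Fin d) : ℕ) then u h.choose else 0 with hvdef
  have hve : ∀ k : Fin m, v (e k) = u k := fun k => hw k
  let D : cols B m d → Derivation ℚ ℂ ℂ := fun x => D0 (e.symm x)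
  have hD : ∀ x, ∀ s ∈ S, D x s = 0 := fun x s hs => hD0 _ s hs
  have hv : ∀ x x', D x (v x') = if x' = x then 1 else 0 := by
    intro x x'
    obtain ⟨k, rfl⟩ := e.surjective x
    obtain ⟨k', rfl⟩ := e.surjective x'
    simp only [D, Equiv.symm_apply_apply, hve, hu, e.injective.eq_iff]
  have hv' : ∀ x x', D x ((starRingEnd ℂ) (v x')) = 0 := by
    intro x x'
    obtain ⟨k', rfl⟩ := e.surjective x'
    simp only [D, hve, hu']
  -- every `R` with few steps is a zero of the polynomial
  have hsub : (((Finset.univ : Finset (Fin d)).powersetCard m).filter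
      (fun R => Succeeds (A i) d R (cols B m d) v T)) ⊆
      (((Finset.univ : Finset (Fin d)).powersetCard m).filter (fun R => ∃ h : R.card = m,
        eval (fun j => om d ^ (R.orderEmbOfFin h j : ℕ)) (kron B H) = 0)) := by
    intro R hR
    simp only [Finset.mem_filter, Finset.mem_powersetCard, Finset.subset_univ, true_and] at hR ⊢
    obtain ⟨hRm, hRT, hcorr⟩ := hR
    refine ⟨hRm, hRm, ?_⟩
    have hmem := mem_linSet (T := T) hd0 e (R.orderIsoOfFin hRm).toEquiv hv hv'
      (A i d R (cols B m d))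
      (fun k s hs => ⟨hD k s (Or.inl (Or.inl (Set.mem_iUnion.2 ⟨i, Set.mem_iUnion.2 ⟨d,
          Set.mem_iUnion.2 ⟨R, hs⟩⟩⟩))),
        hD k _ (Or.inr ⟨s, Or.inl (Set.mem_iUnion.2 ⟨i, Set.mem_iUnion.2 ⟨d,
          Set.mem_iUnion.2 ⟨R, hs⟩⟩⟩), rfl⟩)⟩) hRT
    have hval := hH _ hmem ((Real.sqrt d : ℝ) : ℂ)
    rw [eval_kron]
    have hsq : ((Real.sqrt d : ℝ) : ℂ) ≠ 0 := by
      have : (0 : ℝ) < d := by exact_mod_cast Nat.pos_of_ne_zero hd0
      exact_mod_cast (Real.sqrt_pos.2 this).ne'
    rw [← hval]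
    congr 2
    funext p
    obtain ⟨j, k⟩ := p
    have hfour : ∀ (k : cols B m d) (a b : Fin d), D k (fourier d a b) = 0 := fun k a b =>
      hD k _ (Or.inl (Or.inr (Set.mem_iUnion.2 ⟨d, ⟨(a, b), rfl⟩⟩)))
    have h1 : D (e k) ((A i d R (cols B m d)).eval d v [] ((R.orderIsoOfFin hRm).toEquiv j)) =
        fourier d ((R.orderIsoOfFin hRm j : R) : Fin d) (c k) := by
      rw [hcorr]
      rw [map_sum, Finset.sum_eq_single (e k)]
      · rw [Derivation.leibniz, hv, if_pos rfl, hfour]
        simp [e, e0]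
      · intro x _ hx
        rw [Derivation.leibniz, hv, if_neg hx, hfour]
        simp
      · intro h
        exact absurd (Finset.mem_univ _) h
    simp only [h1]
    rw [Pool.Agent.Results.MP_d958de_lc.NoSubquadratic.fourier, Complex.ofReal_inv, ← mul_assoc, mul_inv_cancel₀ hsq, one_mul, ← pow_mul, om,
      ← Complex.exp_nat_mul]
    congr 1
    simp only [Finset.coe_orderIsoOfFin_apply, c]
    push_cast
    ring
  have hbad := count_bad (m := m) hG0 hd0
  have h1 := (Nat.mul_le_mul_right d (Finset.card_le_card hsub)).trans hbad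
  have h2 : (((Finset.univ : Finset (Fin d)).powersetCard m).filter
      (fun R => Succeeds (A i) d R (cols B m d) v T)).card * d ≤
      (kron B H).totalDegree * (2 ^ m * m.factorial * d.choose m) :=
    h1.trans (Nat.mul_le_mul_left _ (pow_le_choose_mul hdm))
  have h3 : ((((Finset.univ : Finset (Fin d)).powersetCard m).filter
      (fun R => Succeeds (A i) d R (cols B m d) v T)).card : ℝ) * d ≤
      (kron B H).totalDegree * (2 ^ m * m.factorial * d.choose m) := by exact_mod_cast h2
  have hdpos : (0 : ℝ) < d := by exact_mod_cast Nat.pos_of_ne_zero hd0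
  have h4 : ((kron B H).totalDegree : ℝ) * (2 ^ m * m.factorial) ≤ ε * d := by
    rw [div_le_iff₀ hε] at hN
    have : (N : ℝ) ≤ d := by
      have : N ≤ d := by omega
      exact_mod_cast this
    nlinarith
  have h5 : ((((Finset.univ : Finset (Fin d)).powersetCard m).filter
      (fun R => Succeeds (A i) d R (cols B m d) v T)).card : ℝ) * d ≤ (ε * d.choose m) * d := by
    refine h3.trans ?_
    have : (0 : ℝ) ≤ d.choose m := by positivity
    nlinarith
  exact le_of_mul_le_mul_right h5 hdpos

open Classical in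
/-- The expected running time of an algorithm that is correct on the input. -/
theorem expected (A : Algorithm) {m d T : ℕ} (hmd : m ≤ d) {C : Finset (Fin d)} {v : C → ℂ}
    {ε : ℝ} (h : ((((Finset.univ : Finset (Fin d)).powersetCard m).filter
      (fun R => Succeeds A d R C v T)).card : ℝ) ≤ ε * d.choose m)
    (hcorr : ∀ R : Finset (Fin d), R.card = m → ∀ r : R,
      (A d R C).eval d v [] r = ∑ c : C, fourier d r c * v c) :
    (1 - ε) * (T + 1) ≤ expectedSteps A m d C v := by
  have hch : (0 : ℝ) < d.choose m := by exact_mod_cast Nat.choose_pos hmd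
  rw [expectedSteps, le_div_iff₀ hch]
  have hsplit := card_split A m d C v T
  have heq : (((Finset.univ : Finset (Fin d)).powersetCard m).filter
      (fun R => Succeeds A d R C v T)) = (((Finset.univ : Finset (Fin d)).powersetCard m).filter
      (fun R => steps A d R C v ≤ T)) := by
    refine Finset.filter_congr fun R hR => ?_
    have hRm := (Finset.mem_powersetCard.1 hR).2
    exact ⟨fun hs => hs.1, fun hs => ⟨hs, hcorr R hRm⟩⟩
  rw [heq] at h
  have h2 : (((Finset.univ : Finset (Fin d)).powersetCard m).filter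
      (fun R => ¬ steps A d R C v ≤ T)).card * ((T : ℝ) + 1) ≤
      ∑ R ∈ (Finset.univ : Finset (Fin d)).powersetCard m, (steps A d R C v : ℝ) := by
    calc _ = ∑ R ∈ ((Finset.univ : Finset (Fin d)).powersetCard m).filter
          (fun R => ¬ steps A d R C v ≤ T), ((T : ℝ) + 1) := by
          rw [Finset.sum_const, nsmul_eq_mul]
      _ ≤ ∑ R ∈ ((Finset.univ : Finset (Fin d)).powersetCard m).filter
          (fun R => ¬ steps A d R C v ≤ T), (steps A d R C v : ℝ) := by
          refine Finset.sum_le_sum fun R hR => ?_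
          have := (Finset.mem_filter.1 hR).2
          have h3 : T + 1 ≤ steps A d R C v := not_le.1 this
          exact_mod_cast h3
      _ ≤ _ := Finset.sum_le_sum_of_subset_of_nonneg (Finset.filter_subset _ _)
          fun _ _ _ => by positivity
  have h3 : (1 - ε) * d.choose m ≤ ((((Finset.univ : Finset (Fin d)).powersetCard m).filter
      (fun R => ¬ steps A d R C v ≤ T)).card : ℝ) := by linarith
  have hT0 : (0 : ℝ) ≤ (T : ℝ) + 1 := by positivity
  have h5 := mul_le_mul_of_nonneg_right h3 hT0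
  linarith

end Pool.Agent.Y626.FS
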